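import Pool.Agent.helper57.MS.Spec2

/-!
# MP_b48e27_co, row QFI: finite intersections of down-sets
-/

set_option autoImplicit false

open Finset

namespace Pool.Agent.helper57.MS

open Pool.Agent.RRank Pool.Agent.helper26.IM

/-- The partitions which refine a member of every `R i`, `i ∈ s`. -/
def QFI_F {d : ℕ} {ι : Type} (R : ι → Set (IndexPartition d)) (s : Finset ι) :
    Set (IndexPartition d) :=
  {P | ∀ i ∈ s, ∃ P' ∈ R i, P ≤ P'}

theorem QFI (hQMT : QMT_stmt) (hQDS : QDS_stmt) (hQTP : QTP_stmt) : QFI_stmt := by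
  classical
  intro d hd 𝓚 ι _ R R₀ hR hR₀
  have : Fintype ι := Fintype.ofFinite ι
  have key : ∀ s : Finset ι, Q1F 𝓚 (QFI_F R s) := by
    intro s
    induction s using Finset.induction_on with
    | empty =>
      have hne : (univ : Finset (Fin d)) ≠ ⊥ := by
        rw [Finset.bot_eq_empty]
        exact (Finset.univ_nonempty_iff.2 ⟨⟨0, hd⟩⟩).ne_empty
      refine hQTP d hd 𝓚 _ ⟨Finpartition.indiscrete hne, ?_, rfl⟩
      intro i hi
      exact absurd hi (Finset.notMem_empty i)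
    | insert j s hj ih =>
      refine hQDS d 𝓚 _ _ ?_ ?_ (hQMT d hd 𝓚 _ _ ih (hR j))
      · rintro P ⟨P₁, h1, P₂, h2, rfl⟩
        refine ⟨P₁ ⊓ P₂, ?_, le_rfl⟩
        intro i hi
        rcases Finset.mem_insert.1 hi with rfl | hi
        · exact ⟨P₂, h2, inf_le_right⟩
        · obtain ⟨P', h3, h4⟩ := h1 i hi
          exact ⟨P', h3, inf_le_left.trans h4⟩
      · intro P hP
        obtain ⟨P₂, h2, h3⟩ := hP j (Finset.mem_insert_self j s)
        refine ⟨P ⊓ P₂, ⟨P, ?_, P₂, h2, rfl⟩, le_inf le_rfl h3⟩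
        intro i hi
        exact hP i (Finset.mem_insert_of_mem hi)
  refine hQDS d 𝓚 _ _ ?_ ?_ (key univ)
  · intro P hP
    exact (hR₀ P).2 fun i => hP i (Finset.mem_univ i)
  · intro P hP
    refine ⟨P, ?_, le_rfl⟩
    intro i _
    exact (hR₀ P).1 ⟨P, hP, le_rfl⟩ i

end Pool.Agent.helper57.MS
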